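import Mathlib
import Pool.Agent.Lib.MP_ced2c5_an.Maps
import Pool.Agent.Lib.MP_ced2c5_an.Exist
import Pool.Agent.Lib.MP_ced2c5_an.Agree

/-!
# State-preserving approximate conjugacy of unital maps from the Cuntz algebra on infinitely many
generators fails

The algebra `D` of the counterexample is the C*-algebra generated by the five isometries
`s_i : e_x ↦ e_{ix}` of `l2(X)`, `X` the set of sequences in five letters with pairwise different
tails. The state is the average of the vector states at `e_{0z}` and `e_{1z}`. The two unital maps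
send the generator `s_0` of the Cuntz algebra to
`T = s_1 s_0^* + s_0 s_1^* + s_3 s_2^* + s_2 s_3^* + s_4 s_4 s_4^*` and
`T' = s_2 s_0^* + s_0 s_2^* + s_3 s_1^* + s_1 s_3^* + s_4 s_4 s_4^*`, and agree on the other
generators, which go to `s_4 s_0^i s_1`. All the moments agree, `T` lies in the centraliser of the
state, but `T'` is at distance at least `1/4` from it.
-/

namespace Pool.Agent.Results.MP_ced2c5_an.NoStatePreservingConjugacy

open Pool.Agent.Lib.MP_ced2c5_an

/-- `(O, s)` is the Cuntz algebra on infinitely many generators: the `s i` are isometries with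
pairwise orthogonal ranges, they generate `O` as a C*-algebra, and `O` is universal for these
relations among unital C*-algebras. -/
structure IsCuntzInfinity (O : Type) [CStarAlgebra O] (s : ℕ → O) : Prop where
  rel : ∀ i j, star (s i) * s j = if i = j then 1 else 0
  dense : (StarAlgebra.adjoin ℂ (Set.range s)).topologicalClosure = ⊤
  universal : ∀ (B : Type) [CStarAlgebra B] (t : ℕ → B),
    (∀ i j, star (t i) * t j = if i = j then 1 else 0) →
      ∃ φ : O →⋆ₐ[ℂ] B, ∀ i, φ (s i) = t i

/-- `p` is an infinite projection: a projection equivalent to a proper subprojection of itself. -/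
def IsInfiniteProjection {A : Type} [CStarAlgebra A] (p : A) : Prop :=
  star p = p ∧ p * p = p ∧
    ∃ w : A, star w * w = p ∧ p * (w * star w) = w * star w ∧ w * star w ≠ p

/-- `K` is a hereditary C*-subalgebra of `A`: a closed star subalgebra (not necessarily unital)
such that `0 ≤ x ≤ y` and `y ∈ K` imply `x ∈ K`; here `0 ≤ a` means `a = c^* c` for some `c`. -/
def IsHereditary {A : Type} [CStarAlgebra A] (K : NonUnitalStarSubalgebra ℂ A) : Prop :=
  IsClosed (K : Set A) ∧
    ∀ x y : A, y ∈ K → (∃ c, x = star c * c) → (∃ d, y - x = star d * d) → x ∈ K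

/-- Every nonzero hereditary C*-subalgebra contains an infinite projection. -/
def IsPurelyInfinite (A : Type) [CStarAlgebra A] : Prop :=
  ∀ K : NonUnitalStarSubalgebra ℂ A, IsHereditary K → (∃ x ∈ K, x ≠ 0) →
    ∃ p ∈ K, IsInfiniteProjection p

/-- A state: a positive linear functional of norm one. -/
def IsState {A : Type} [CStarAlgebra A] (μ : A →L[ℂ] ℂ) : Prop :=
  (∀ x, 0 ≤ (μ (star x * x)).re ∧ (μ (star x * x)).im = 0) ∧ ‖μ‖ = 1

/-- There are a separable simple purely infinite unital C*-algebra `D`, a state `μ` on `D` and two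
unital homomorphisms `φ₁, φ₂` from the Cuntz algebra on infinitely many generators to `D` with
`μ ∘ φ₁ = μ ∘ φ₂`, a number `ε > 0` and a finite set `F` such that for every `μ`-preserving
automorphism `α` of `D` one has `‖φ₂ a - α (φ₁ a)‖ ≥ ε` for some `a ∈ F`. -/
theorem result :
    ∃ (O : Type) (_ : CStarAlgebra O) (s : ℕ → O), IsCuntzInfinity O s ∧
      ∃ (D : Type) (_ : CStarAlgebra D) (μ : D →L[ℂ] ℂ) (φ₁ φ₂ : O →⋆ₐ[ℂ] D),
        TopologicalSpace.SeparableSpace D ∧ IsSimpleRing D ∧ IsPurelyInfinite D ∧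
        IsState μ ∧ (∀ a, μ (φ₁ a) = μ (φ₂ a)) ∧
        ∃ (ε : ℝ) (F : Finset O), 0 < ε ∧
          ∀ α : D ≃⋆ₐ[ℂ] D, (∀ x, μ (α x) = μ x) → ∃ a ∈ F, ε ≤ ‖φ₂ a - α (φ₁ a)‖ := by
  obtain ⟨z⟩ := nonempty_Xs
  obtain ⟨φ₁, h1⟩ := univ_su Dd (Td good1) (Td_rel good1)
  obtain ⟨φ₂, h2⟩ := univ_su Dd (Td good2) (Td_rel good2)
  refine ⟨Ou, inferInstance, su, ⟨su_rel, ?_, fun B _ t ht => univ_su B t ht⟩, Dd, inferInstance,
    mu z, φ₁, φ₂, separable_Dd, simple_Dd, purInf_Dd, mu_state z, ?_, 1 / 4, {su 0}, by norm_num,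
    ?_⟩
  · rw [← cspan_eq_adjoin su_rel]
    apply SetLike.coe_injective
    rw [StarSubalgebra.topologicalClosure_coe, dense_su]
    rfl
  · exact agree (mu z) φ₁ φ₂ su su_rel dense_su _ _ h1 h2
      (fun p => (mu_moment good1 z p).trans (mu_moment good2 z p).symm)
  · intro α hα
    refine ⟨su 0, Finset.mem_singleton_self _, ?_⟩
    rw [h1, h2]
    exact obstruction z α hα

end Pool.Agent.Results.MP_ced2c5_an.NoStatePreservingConjugacy
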